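import Pool.Agent.UL7.Stmts

/-!
# Squad UL7, row ZON: the area of the sum with a zonotope (MP_c7c9bf_co)
-/

set_option autoImplicit false

namespace Pool.Agent.UL7.H69

open MeasureTheory Set Pool.Agent.UL3 Pool.Agent.UL4 Pool.Agent.UL5 Pool.Agent.UL7

theorem zonArea (hSGC : SgcStmt) (hSGA : SgaStmt) (hDHS : DhsStmt) : ZonStmt := by
  intro X l
  induction l generalizing X with
  | nil =>
    intro _
    show ar X = ar X + (ar (dh X) - ar (dh X))
    ring
  | cons v l ih =>
    intro hX
    have h1 := ih (sgm X v) ((hSGC X v).2.2.2 hX)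
    have h2 : dh (sgm X v) = sgm (dh X) v := hDHS.2.2.1 X v
    have h3 := hSGA X v hX
    have h4 := hSGA (dh X) v (hDHS.1 X hX).2
    have h5 : dh (dh X) = dh X := (hDHS.2.1 (dh X) (hDHS.1 X hX).1).1
    rw [h5] at h4
    rw [h2] at h1
    show ar (zon (sgm X v) l) = ar X + (ar (zon (sgm (dh X) v) l) - ar (dh X))
    linarith

end Pool.Agent.UL7.H69
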